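import Mathlib
import Pool.Agent.R576.Shuf

set_option autoImplicit false

/-!
# Equality of a regular language and the shuffle of a regular language and a DCM(1,1) language
-/

namespace Pool.Agent.Results.MP_435b2a_lc.ShuffleEquality

open Relation Pool.Agent.R576.Shuf Pool.Agent.Helper599.Core Pool.Agent.Helper599.Source

/-! ### Real-time machines -/

section rt
variable {A S : Type} [Finite S] (t : S → Option A → Bool → S × SignType) (s0 : S) (F : Set S)

/-- The machine which moves its head at every move. -/
abbrev rt : DCM A where
  Q := S
  finite := inferInstance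
  start := s0
  final := F
  step := fun q x z => some ((t q x z).1, (t q x z).2, true)

/-- One step on states and counters. -/
def stp (c : S × ℕ) (x : Option A) : S × ℕ :=
  ((t c.1 x (decide (c.2 = 0))).1, ((c.2 : ℤ) + ((t c.1 x (decide (c.2 = 0))).2 : ℤ)).toNat)

theorem move_iff (ht : ∀ q x, (t q x true).2 ≠ -1) (q : S) (x : Option A) (r : List (Option A))
    (n : ℕ) (c : (rt t s0 F).Config) : (rt t s0 F).Move (q, x :: r, n) c ↔
      c = ((stp t (q, n) x).1, r, (stp t (q, n) x).2) := by
  constructor
  · intro h
    cases h with
    | mk _ q' _ _ _ n' d mv h1 h2 =>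
      have h3 : ((t q x (decide (n = 0))).1, (t q x (decide (n = 0))).2, true) = (q', d, mv) :=
        Option.some.inj h1
      simp only [Prod.mk.injEq] at h3
      obtain ⟨rfl, rfl, rfl⟩ := h3
      have h4 : n' = (stp t (q, n) x).2 := by
        unfold stp
        rw [← h2]
        rfl
      rw [h4]
      rfl
  · rintro rfl
    have hn : (((stp t (q, n) x).2 : ℕ) : ℤ) = n + ((t q x (decide (n = 0))).2 : ℤ) := by
      unfold stp
      simp only
      rw [Int.toNat_of_nonneg]
      by_cases hn : n = 0
      · subst hn
        have := ht q x
        rw [decide_eq_true rfl]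
        generalize (t q x true).2 = d at this ⊢
        cases d <;> simp_all
      · generalize (t q x (decide (n = 0))).2 = d
        cases d <;> simp <;> omega
    exact DCM.Move.mk (M := rt t s0 F) q _ x r n _ _ true rfl hn

theorem reach_iff (ht : ∀ q x, (t q x true).2 ≠ -1) (l : List (Option A)) :
    ∀ (q q' : S) (n n' : ℕ), ReflTransGen (rt t s0 F).Move (q, l, n) (q', [], n') ↔
      l.foldl (stp t) (q, n) = (q', n') := by
  induction l with
  | nil =>
    intro q q' n n'
    constructor
    · intro h
      rcases h.cases_head with h | ⟨c, h, _⟩
      · simp only [Prod.mk.injEq] at h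
        exact Prod.ext h.1 h.2.2
      · cases h
    · intro h
      have : (q, n) = (q', n') := h
      simp only [Prod.mk.injEq] at this
      rw [this.1, this.2]
  | cons x l ih =>
    intro q q' n n'
    rw [List.foldl_cons]
    constructor
    · intro h
      rcases h.cases_head with h | ⟨c, h, h'⟩
      · simp at h
      · rw [move_iff t s0 F ht] at h
        subst h
        exact (ih _ _ _ _).1 h'
    · intro h
      exact ReflTransGen.head ((move_iff t s0 F ht q x l n _).2 rfl) ((ih _ _ _ _).2 h)

theorem mem_rt_lang (ht : ∀ q x, (t q x true).2 ≠ -1) (w : List A) :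
    w ∈ (rt t s0 F).lang ↔ (stp t (w.foldl (fun c a => stp t c (some a)) (s0, 0)) none).1 ∈ F := by
  have key : (w.map some ++ [none]).foldl (stp t) (s0, 0) =
      stp t (w.foldl (fun c a => stp t c (some a)) (s0, 0)) none := by
    rw [List.foldl_append, List.foldl_map]
    rfl
  constructor
  · rintro ⟨q, n, h, hq⟩
    have h2 := (reach_iff t s0 F ht _ _ _ _ _).1 h
    rw [← key]
    have h3 : (w.map some ++ [none]).foldl (stp t) (s0, 0) = (q, n) := h2
    rw [h3]
    exact hq
  · intro h
    rw [← key] at h
    exact ⟨_, _, (reach_iff t s0 F ht _ _ _ _ _).2 rfl, h⟩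

theorem rt_oneReversal (late : S → Prop)
    (h1 : ∀ q x z, late q → late (t q x z).1 ∧ (t q x z).2 ≠ 1)
    (h2 : ∀ q x z, (t q x z).2 = -1 → late q) : (rt t s0 F).OneReversal := by
  have mv : ∀ c₁ c₂ : (rt t s0 F).Config, (rt t s0 F).Move c₁ c₂ → late c₁.1 →
      late c₂.1 ∧ c₂.2.2 ≤ c₁.2.2 := by
    intro c₁ c₂ h hl
    cases h with
    | mk q q' x r n n' d mv h3 h4 =>
      have h5 : ((t q x (decide (n = 0))).1, (t q x (decide (n = 0))).2, true) = (q', d, mv) :=
        Option.some.inj h3
      simp only [Prod.mk.injEq] at h5
      obtain ⟨rfl, rfl, rfl⟩ := h5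
      obtain ⟨h6, h7⟩ := h1 q x (decide (n = 0)) hl
      refine ⟨h6, ?_⟩
      generalize (t q x (decide (n = 0))).2 = d at h4 h7
      show n' ≤ n
      cases d <;> simp at h4 h7 <;> omega
  intro w c₁ c₂ c₃ c₄ _ g2 g3 g4 g5
  have l1 : late c₁.1 := by
    cases g2 with
    | mk q q' x r n n' d mv h6 h7 =>
      have h8 : ((t q x (decide (n = 0))).1, (t q x (decide (n = 0))).2, true) = (q', d, mv) :=
        Option.some.inj h6
      simp only [Prod.mk.injEq] at h8
      obtain ⟨rfl, rfl, rfl⟩ := h8
      apply h2 q x (decide (n = 0))
      have h9 : n' < n := g3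
      generalize (t q x (decide (n = 0))).2 = d at h7
      cases d <;> simp at h7 <;> first | rfl | omega
  have l2 := (mv _ _ g2 l1).1
  have l3 : ∀ c, ReflTransGen (rt t s0 F).Move c₂ c → late c.1 := by
    intro c hc
    induction hc with
    | refl => exact l2
    | tail _ h ih => exact (mv _ _ h ih).1
  exact (mv _ _ g5 (l3 c₃ g4)).2

end rt

open Lt

variable {Q : Type} (N : Sys Q Bool)

/-! ### The machine of the second language -/

/-- The states of the machine: before the first letter, inside, and a dead state. -/
inductive S3 (Q : Type) (B l : ℕ) : Type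
  | start
  | inn (s : S2 Q B l)
  | out

instance {B l : ℕ} [Finite Q] : Finite (S3 Q B l) := by
  refine Finite.of_injective (β := Option (Option (S2 Q B l)))
    (fun g => match g with
      | .start => none
      | .inn s => some (some s)
      | .out => some none) ?_
  intro a b h
  cases a <;> cases b <;> simp_all

/-- The transitions; the letter `none` (written `#` in the comments) is the first letter of every
accepted nonempty word. -/
noncomputable def tr3 : S3 Q N.B N.l → Option (Option (Lt Q)) → Bool → S3 Q N.B N.l × SignType
  | .start, none, _ => (.start, 0)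
  | .start, some none, _ => (.inn .skip, 0)
  | .inn s, none, z => (.inn (tr N s none z).1, (tr N s none z).2)
  | .inn s, some (some a), z => (.inn (tr N s (some a) z).1, (tr N s (some a) z).2)
  | _, _, _ => (.out, 0)

theorem tr3_zero (q : S3 Q N.B N.l) (x : Option (Option (Lt Q))) : (tr3 N q x true).2 ≠ -1 := by
  cases q with
  | start =>
    rcases x with _ | _ | a <;> simp [tr3]
  | inn s =>
    rcases x with _ | _ | a
    · exact tr_zero N s none
    · simp [tr3]
    · exact tr_zero N s (some a)
  | out =>
    rcases x with _ | _ | a <;> simp [tr3]

/-- the late states -/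
def late3 : S3 Q N.B N.l → Prop
  | .start => False
  | .inn s => late N s
  | .out => True

theorem late3_tr (q : S3 Q N.B N.l) (x : Option (Option (Lt Q))) (z : Bool) (h : late3 N q) :
    late3 N (tr3 N q x z).1 ∧ (tr3 N q x z).2 ≠ 1 := by
  cases q with
  | start => exact h.elim
  | inn s =>
    rcases x with _ | _ | a
    · exact late_tr N s none z h
    · simp [tr3, late3]
    · exact late_tr N s (some a) z h
  | out =>
    rcases x with _ | _ | a <;> simp [tr3, late3]

theorem dec_late3 (q : S3 Q N.B N.l) (x : Option (Option (Lt Q))) (z : Bool)
    (h : (tr3 N q x z).2 = -1) : late3 N q := by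
  cases q with
  | start =>
    exfalso
    rcases x with _ | _ | a <;> simp [tr3] at h
  | inn s =>
    rcases x with _ | _ | a
    · exact dec_late N s none z h
    · simp [tr3] at h
    · exact dec_late N s (some a) z h
  | out => trivial

section machine
variable [Finite Q] {k : ℕ} (e : Option (Lt Q) ≃ Fin k)

/-- The transitions over the alphabet `Fin k`. -/
noncomputable def trk (q : S3 Q N.B N.l) (x : Option (Fin k)) (z : Bool) :
    S3 Q N.B N.l × SignType := tr3 N q (x.map e.symm) z

/-- The machine over the alphabet `Fin k`. -/
noncomputable abbrev mach : DCM (Fin k) := rt (trk N e) .start {.start, .inn .acc}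

theorem mach_oneReversal : (mach N e).OneReversal :=
  rt_oneReversal _ _ _ (late3 N) (fun q _ z h => late3_tr N q _ z h)
    (fun q _ z h => dec_late3 N q _ z h)

omit [Finite Q] in
theorem stp_inn (s : S2 Q N.B N.l) (n : ℕ) (a : Lt Q) :
    stp (trk N e) (.inn s, n) (some (e (some a))) =
      (.inn (nc N (s, n) (some a)).1, (nc N (s, n) (some a)).2) := by
  unfold stp trk nc
  simp only [Option.map_some, Equiv.symm_apply_apply]
  rfl

omit [Finite Q] in
theorem fold_inn (u : List (Lt Q)) : ∀ (s : S2 Q N.B N.l) (n : ℕ),
    ((u.map some).map e).foldl (fun c a => stp (trk N e) c (some a)) (.inn s, n) =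
      (.inn (rn N (s, n) u).1, (rn N (s, n) u).2) := by
  induction u with
  | nil => intro s n; rfl
  | cons a u ih =>
    intro s n
    rw [List.map_cons, List.map_cons, List.foldl_cons, stp_inn, ih, rn_cons]

omit [Finite Q] in
theorem fold_out (u : List (Fin k)) : ∀ (n : ℕ),
    (u.foldl (fun c a => stp (trk N e) c (some a)) (.out, n)).1 = .out := by
  induction u with
  | nil => intro n; rfl
  | cons a u ih =>
    intro n
    rw [List.foldl_cons]
    have : (stp (trk N e) (.out, n) (some a)).1 = .out := by
      unfold stp trk
      simp only [Option.map_some]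
      cases e.symm a <;> rfl
    have h2 : stp (trk N e) (.out, n) (some a) = (.out, (stp (trk N e) (.out, n) (some a)).2) :=
      Prod.ext this rfl
    rw [h2]
    exact ih _

omit [Finite Q] in
theorem fold_inn_none (w : List (Fin k)) (hw : none ∈ w.map e.symm) :
    ∀ (s : S2 Q N.B N.l) (n : ℕ),
    (w.foldl (fun c a => stp (trk N e) c (some a)) (.inn s, n)).1 = .out := by
  induction w with
  | nil => simp at hw
  | cons a w ih =>
    intro s n
    rw [List.foldl_cons]
    rw [List.map_cons, List.mem_cons] at hw
    cases ha : e.symm a with
    | none =>
      have : (stp (trk N e) (.inn s, n) (some a)).1 = .out := by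
        unfold stp trk
        simp only [Option.map_some, ha]
        rfl
      have h2 : stp (trk N e) (.inn s, n) (some a) =
        (.out, (stp (trk N e) (.inn s, n) (some a)).2) := Prod.ext this rfl
      rw [h2]
      exact fold_out N e w _
    | some b =>
      have hw' : none ∈ w.map e.symm := by
        rcases hw with h | h
        · rw [ha] at h
          exact absurd h (by simp)
        · exact h
      have h2 : stp (trk N e) (.inn s, n) (some a) =
          (.inn (nc N (s, n) (some b)).1, (nc N (s, n) (some b)).2) := by
        have ha' : a = e (some b) := by rw [← ha, Equiv.apply_symm_apply]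
        rw [ha']
        exact stp_inn N e s n b
      rw [h2]
      exact ih hw' _ _

theorem exists_map_some {B : Type} (l : List (Option B)) (h : none ∉ l) :
    ∃ u : List B, l = u.map some := by
  induction l with
  | nil => exact ⟨[], rfl⟩
  | cons a l ih =>
    rw [List.mem_cons, not_or] at h
    obtain ⟨u, rfl⟩ := ih h.2
    cases a with
    | none => exact absurd rfl h.1
    | some b => exact ⟨b :: u, rfl⟩

theorem mem_mach (w : List (Fin k)) : w ∈ (mach N e).lang ↔
    w.map e.symm = [] ∨ ∃ u : List (Lt Q), w.map e.symm = none :: u.map some ∧
      (rn N (.skip, 0) u).1 = .acc := by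
  rw [mem_rt_lang (trk N e) .start {.start, .inn .acc} (fun q x => tr3_zero N q _)]
  cases w with
  | nil =>
    constructor
    · intro _; exact Or.inl rfl
    · intro _; exact Or.inl rfl
  | cons a w =>
    rw [List.foldl_cons, List.map_cons]
    cases ha : e.symm a with
    | some b =>
      have h1 : (stp (trk N e) (.start, 0) (some a)).1 = .out := by
        unfold stp trk
        simp only [Option.map_some, ha]
        rfl
      have h2 : stp (trk N e) (.start, 0) (some a) =
        (.out, (stp (trk N e) (.start, 0) (some a)).2) := Prod.ext h1 rfl
      rw [h2]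
      have h3 := fold_out N e w (stp (trk N e) (.start, 0) (some a)).2
      constructor
      · intro h
        exfalso
        generalize w.foldl (fun c a => stp (trk N e) c (some a))
          (.out, (stp (trk N e) (.start, 0) (some a)).2) = c at h h3
        obtain ⟨c1, c2⟩ := c
        simp only at h3
        subst h3
        rcases h with h | h
        · exact absurd h (by simp [stp, trk, tr3])
        · exact absurd h (by simp [stp, trk, tr3])
      · rintro (h | ⟨u, h, _⟩)
        · simp at h
        · simp at h
    | none =>
      have h2 : stp (trk N e) (.start, 0) (some a) = (.inn .skip, 0) := by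
        unfold stp trk
        simp only [Option.map_some, ha]
        simp [tr3]
      rw [h2]
      by_cases hw : none ∈ w.map e.symm
      · have h3 := fold_inn_none N e w hw .skip 0
        constructor
        · intro h
          exfalso
          generalize w.foldl (fun c a => stp (trk N e) c (some a)) (.inn .skip, 0) = c at h h3
          obtain ⟨c1, c2⟩ := c
          simp only at h3
          subst h3
          rcases h with h | h
          · exact absurd h (by simp [stp, trk, tr3])
          · exact absurd h (by simp [stp, trk, tr3])
        · rintro (h | ⟨u, h, _⟩)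
          · simp at h
          · exfalso
            have h4 := (List.cons.inj h).2
            rw [h4] at hw
            simp at hw
      · obtain ⟨u, hu⟩ := exists_map_some _ hw
        have hw2 : w = (u.map some).map e := by
          rw [← hu]; simp
        rw [hu]
        rw [hw2, fold_inn]
        have h5 : (stp (trk N e) (.inn (rn N (.skip, 0) u).1, (rn N (.skip, 0) u).2) none).1 =
            .inn (tr N (rn N (.skip, 0) u).1 none (decide ((rn N (.skip, 0) u).2 = 0))).1 := rfl
        rw [h5]
        constructor
        · rintro (h | h)
          · exact absurd h (by simp)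
          · right
            refine ⟨u, rfl, ?_⟩
            have h6 : (S3.inn (tr N (rn N (.skip, 0) u).1 none
              (decide ((rn N (.skip, 0) u).2 = 0))).1 : S3 Q N.B N.l) = .inn .acc := h
            exact (tr_none N _ _).1 (S3.inn.inj h6)
        · rintro (h | ⟨u', h, h'⟩)
          · simp at h
          · right
            have h7 : u = u' := by
              have := (List.cons.inj h).2
              exact List.map_injective_iff.2 (Option.some_injective _) this
            subst h7
            show (S3.inn (tr N (rn N (.skip, 0) u).1 none
              (decide ((rn N (.skip, 0) u).2 = 0))).1 : S3 Q N.B N.l) = .inn .acc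
            rw [(tr_none N _ _).2 h']

end machine

/-! ### The automata of the first languages -/

open Classical in
/-- The transition function of the automaton with the parameter `m`. States: `0` to `m + 9` read
the candidates (after the letter `none`), `m + 10` is initial, `m + 11`, `m + 12` recognize the
words without the letter `none` which are `good`, `m + 13` stands for the other words without the
letter `none`, `m + 14` for the words with the letter `none` which are not beginnings of
candidates. -/
noncomputable def hh (q0 : Q) (m s : ℕ) : Option (Lt Q) → ℕ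
  | none => if s = m + 10 then m + 9 else m + 14
  | some (M true) => if s = m + 9 then m + 8 else if s = 0 then 1 else
      if s = m + 10 ∨ s = m + 11 ∨ s = m + 12 then m + 12 else if s = m + 13 then m + 13 else m + 14
  | some (M false) => if s = m + 8 then m + 7 else if s = 1 then 2 else
      if s = m + 10 ∨ s = m + 11 ∨ s = m + 12 then m + 12 else if s = m + 13 then m + 13 else m + 14
  | some (St none) => if s = 2 then 4 else
      if s = m + 10 ∨ s = m + 11 ∨ s = m + 12 then m + 11 else if s = m + 13 then m + 13 else m + 14
  | some (St (some q)) => if s = m + 7 then (if q = q0 then m + 6 else m + 14) else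
      if s = 2 then 3 else
      if s = m + 10 ∨ s = m + 11 ∨ s = m + 12 then m + 11 else if s = m + 13 then m + 13 else m + 14
  | some (K true) => if 6 < s ∧ s < m + 7 then s - 1 else if s = 3 ∨ s = 4 then s else
      if s = m + 10 ∨ s = m + 11 then m + 11 else if s = m + 12 ∨ s = m + 13 then m + 13 else m + 14
  | some (K false) => if s = 3 ∨ s = 4 then s else
      if s = m + 10 ∨ s = m + 11 then m + 11 else if s = m + 12 ∨ s = m + 13 then m + 13 else m + 14
  | some D => if s = 6 then 0 else if s = 3 then 0 else if s = 4 then 5 else
      if s = m + 10 ∨ s = m + 11 ∨ s = m + 12 ∨ s = m + 13 then m + 13 else m + 14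

open Classical in
theorem hh_primrec (q0 : Q) (x : Option (Lt Q)) :
    Primrec (fun p : ℕ × ℕ => hh q0 p.1 p.2 x) := by
  have hm : ∀ c, Primrec (fun p : ℕ × ℕ => p.1 + c) := fun c =>
    Primrec.nat_add.comp Primrec.fst (Primrec.const c)
  have he : ∀ c, PrimrecPred (fun p : ℕ × ℕ => p.2 = p.1 + c) := fun c =>
    Primrec.eq.comp Primrec.snd (hm c)
  have hc : ∀ c, PrimrecPred (fun p : ℕ × ℕ => p.2 = c) := fun c =>
    Primrec.eq.comp Primrec.snd (Primrec.const c)
  have h3 : PrimrecPred (fun p : ℕ × ℕ => p.2 = p.1 + 10 ∨ p.2 = p.1 + 11 ∨ p.2 = p.1 + 12) :=
    (he 10).or ((he 11).or (he 12))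
  rcases x with _ | (_ | _) | (_ | q) | (_ | _) | _
  · exact Primrec.ite (he 10) (hm 9) (hm 14)
  · exact Primrec.ite (he 8) (hm 7) (Primrec.ite (hc 1) (Primrec.const 2) (Primrec.ite h3 (hm 12)
      (Primrec.ite (he 13) (hm 13) (hm 14))))
  · exact Primrec.ite (he 9) (hm 8) (Primrec.ite (hc 0) (Primrec.const 1) (Primrec.ite h3 (hm 12)
      (Primrec.ite (he 13) (hm 13) (hm 14))))
  · exact Primrec.ite (hc 2) (Primrec.const 4) (Primrec.ite h3 (hm 11)
      (Primrec.ite (he 13) (hm 13) (hm 14)))
  · have h4 : Primrec (fun p : ℕ × ℕ => if q = q0 then p.1 + 6 else p.1 + 14) := by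
      by_cases h : q = q0
      · simp only [if_pos h]; exact hm 6
      · simp only [if_neg h]; exact hm 14
    exact Primrec.ite (he 7) h4 (Primrec.ite (hc 2) (Primrec.const 3) (Primrec.ite h3 (hm 11)
      (Primrec.ite (he 13) (hm 13) (hm 14))))
  · exact Primrec.ite ((hc 3).or (hc 4)) Primrec.snd (Primrec.ite ((he 10).or (he 11)) (hm 11)
      (Primrec.ite ((he 12).or (he 13)) (hm 13) (hm 14)))
  · exact Primrec.ite ((Primrec.nat_lt.comp (Primrec.const 6) Primrec.snd).and
      (Primrec.nat_lt.comp Primrec.snd (hm 7)))
      (Primrec.nat_sub.comp Primrec.snd (Primrec.const 1))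
      (Primrec.ite ((hc 3).or (hc 4)) Primrec.snd (Primrec.ite ((he 10).or (he 11)) (hm 11)
      (Primrec.ite ((he 12).or (he 13)) (hm 13) (hm 14))))
  · exact Primrec.ite (hc 6) (Primrec.const 0) (Primrec.ite (hc 3) (Primrec.const 0)
      (Primrec.ite (hc 4) (Primrec.const 5)
        (Primrec.ite ((he 10).or ((he 11).or ((he 12).or (he 13)))) (hm 13) (hm 14))))

theorem flatMap_primrec {A B : Type} [Primcodable B] (l : List A) (F : A → ℕ → List B)
    (h : ∀ a, Primrec (F a)) : Primrec (fun m => l.flatMap (fun a => F a m)) := by
  induction l with
  | nil => exact Primrec.const []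
  | cons a l ih =>
    simp only [List.flatMap_cons]
    exact Primrec.list_append.comp (h a) ih

section code
variable {k : ℕ} (e : Option (Lt Q) ≃ Fin k) (q0 : Q)

/-- the transitions -/
noncomputable def delta (m : ℕ) : List (ℕ × Fin k × ℕ) :=
  (List.finRange k).flatMap fun a => (List.range (m + 15)).map fun s =>
    (s, a, hh q0 m s (e.symm a))

/-- the final states -/
def fin (m : ℕ) : List ℕ := [0, 1, 2, 3, 4] ++ ((List.range (m + 7)).map (fun i => i + 6) ++ [m + 14])

/-- the code -/
noncomputable def code (m : ℕ) : FACode k := (m + 10, delta e q0 m, fin m)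

theorem code_computable : Computable (code e q0) := by
  apply Primrec.to_comp
  have hadd : ∀ c : ℕ, Primrec (fun m : ℕ => m + c) := fun c =>
    Primrec.nat_add.comp Primrec.id (Primrec.const c)
  have h1 : Primrec (fun m : ℕ => delta e q0 m) := by
    refine flatMap_primrec (List.finRange k) (fun a m => (List.range (m + 15)).map fun s =>
      (s, a, hh q0 m s (e.symm a))) fun a => ?_
    refine Primrec.list_map (Primrec.list_range.comp (hadd 15)) ?_
    exact (Primrec.snd.pair ((Primrec.const a).pair (hh_primrec q0 (e.symm a)))).to₂
  have h2 : Primrec (fun m : ℕ => fin m) := by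
    refine Primrec.list_append.comp (Primrec.const _) (Primrec.list_append.comp ?_ ?_)
    · exact Primrec.list_map (Primrec.list_range.comp (hadd 7))
        ((hadd 6).comp Primrec.snd).to₂
    · exact Primrec.list_cons.comp (hadd 14) (Primrec.const [])
  exact (hadd 10).pair (h1.pair h2)

theorem mem_delta (m s : ℕ) (a : Fin k) (t : ℕ) : (s, a, t) ∈ delta e q0 m ↔
    s < m + 15 ∧ t = hh q0 m s (e.symm a) := by
  unfold delta
  simp only [List.mem_flatMap, List.mem_map, List.mem_range, Prod.mk.injEq, List.mem_finRange,
    true_and]
  constructor
  · rintro ⟨a', s', h, rfl, rfl, rfl⟩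
    exact ⟨h, rfl⟩
  · rintro ⟨h, rfl⟩
    exact ⟨a, s, h, rfl, rfl, rfl⟩

theorem code_deterministic (m : ℕ) : Deterministic (code e q0 m) := by
  intro s a t t' h h'
  have h1 := ((mem_delta e q0 m s a t).1 h).2
  have h2 := ((mem_delta e q0 m s a t').1 h').2
  rw [h1, h2]

theorem mem_fin (m s : ℕ) (hs : s < m + 15) : s ∈ fin m ↔ s ≠ 5 ∧ s ≠ m + 13 := by
  unfold fin
  simp only [List.mem_append, List.mem_cons, List.not_mem_nil, or_false, List.mem_map,
    List.mem_range]
  constructor
  · rintro (h | ⟨i, hi, rfl⟩ | h) <;> omega
  · rintro ⟨h1, h2⟩
    by_cases h : s < 5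
    · left; omega
    · by_cases h' : s = m + 14
      · right; right; exact h'
      · right; left
        exact ⟨s - 6, by omega, by omega⟩

theorem hh_lt (m s : ℕ) (hs : s < m + 15) (x : Option (Lt Q)) : hh q0 m s x < m + 15 := by
  rcases x with _ | (_ | _) | (_ | q) | (_ | _) | _ <;> simp only [hh] <;> split_ifs <;> omega

/-- the state reached -/
noncomputable def run (m s : ℕ) (w : List (Option (Lt Q))) : ℕ := w.foldl (hh q0 m) s

theorem run_lt (m : ℕ) (w : List (Option (Lt Q))) : ∀ s, s < m + 15 → run q0 m s w < m + 15 := by
  induction w with
  | nil => intro s hs; exact hs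
  | cons x w ih => intro s hs; exact ih _ (hh_lt q0 m s hs x)

theorem path_iff (m : ℕ) (w : List (Fin k)) : ∀ s t, s < m + 15 →
    (Path (delta e q0 m) s w t ↔ t = run q0 m s (w.map e.symm)) := by
  induction w with
  | nil =>
    intro s t _
    exact eq_comm
  | cons a w ih =>
    intro s t hs
    constructor
    · rintro ⟨s', h1, h2⟩
      have h3 := ((mem_delta e q0 m s a s').1 h1).2
      subst h3
      exact (ih _ t (hh_lt q0 m s hs _)).1 h2
    · intro h
      exact ⟨_, (mem_delta e q0 m s a _).2 ⟨hs, rfl⟩, (ih _ t (hh_lt q0 m s hs _)).2 h⟩

theorem mem_faLang (m : ℕ) (w : List (Fin k)) : w ∈ faLang (code e q0 m) ↔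
    run q0 m (m + 10) (w.map e.symm) ≠ 5 ∧ run q0 m (m + 10) (w.map e.symm) ≠ m + 13 := by
  have h10 : m + 10 < m + 15 := by omega
  rw [← mem_fin m _ (run_lt q0 m _ _ h10)]
  constructor
  · rintro ⟨t, ht, h⟩
    rw [(path_iff e q0 m w _ t h10).1 h] at ht
    exact ht
  · intro h
    exact ⟨_, h, (path_iff e q0 m w _ _ h10).2 rfl⟩

end code

/-! ### The language of the automaton -/

section analysis
variable (q0 : Q) (m : ℕ)

theorem run_nil (s : ℕ) : run q0 m s [] = s := rfl
theorem run_cons (s : ℕ) (x : Option (Lt Q)) (w : List (Option (Lt Q))) :
    run q0 m s (x :: w) = run q0 m (hh q0 m s x) w := rfl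

theorem hh_any (x : Option (Lt Q)) : hh q0 m (m + 14) x = m + 14 := by
  rcases x with _ | (_ | _) | (_ | q) | (_ | _) | _ <;> simp only [hh] <;> split_ifs <;>
    first | omega | contradiction

theorem run_any (w : List (Option (Lt Q))) : run q0 m (m + 14) w = m + 14 := by
  induction w with
  | nil => rfl
  | cons x w ih => rw [run_cons, hh_any]; exact ih

theorem hh_none (s : ℕ) (hs : s ≠ m + 10) : hh q0 m s none = m + 14 := by
  simp only [hh]
  rw [if_neg hs]

/-- after the first letter, outside the candidates -/
theorem run_flags (w : List (Option (Lt Q))) : ∀ s, (s = m + 11 ∨ s = m + 12 ∨ s = m + 13) →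
    (none ∈ w → run q0 m s w = m + 14) ∧
    (∀ v : List (Lt Q), w = v.map some → s = m + 13 → run q0 m s w = m + 13) ∧
    (∀ v : List (Lt Q), w = v.map some → s ≠ m + 13 →
      (good (decide (s = m + 12)) v → run q0 m s w = m + 11 ∨ run q0 m s w = m + 12) ∧
      (¬ good (decide (s = m + 12)) v → run q0 m s w = m + 13)) := by
  induction w with
  | nil =>
    intro s hs
    refine ⟨by simp, fun v _ h => h, fun v hv h => ?_⟩
    have : v = [] := by
      cases v with
      | nil => rfl
      | cons a v => simp at hv
    subst this
    refine ⟨fun _ => ?_, fun h => absurd trivial h⟩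
    rw [run_nil]
    omega
  | cons x w ih =>
    intro s hs
    rw [run_cons]
    cases x with
    | none =>
      rw [hh_none q0 m s (by omega), run_any]
      refine ⟨fun _ => rfl, fun v hv => ?_, fun v hv => ?_⟩
      · cases v with
        | nil => simp at hv
        | cons a v => simp at hv
      · cases v with
        | nil => simp at hv
        | cons a v => simp at hv
    | some y =>
      have hcl : hh q0 m s (some y) = m + 11 ∨ hh q0 m s (some y) = m + 12 ∨
          hh q0 m s (some y) = m + 13 := by
        rcases y with (_ | _) | (_ | q) | (_ | _) | _ <;> simp only [hh] <;> split_ifs <;> omega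
      obtain ⟨i1, i2, i3⟩ := ih _ hcl
      refine ⟨fun h => i1 (by simpa using h), fun v hv hs' => ?_, fun v hv hs' => ?_⟩
      · cases v with
        | nil => simp at hv
        | cons a v =>
          rw [List.map_cons] at hv
          obtain ⟨h1, h2⟩ := List.cons.inj hv
          refine i2 v h2 ?_
          rcases y with (_ | _) | (_ | q) | (_ | _) | _ <;> simp only [hh] <;> split_ifs <;> omega
      · cases v with
        | nil => simp at hv
        | cons a v =>
          rw [List.map_cons] at hv
          obtain ⟨h1, h2⟩ := List.cons.inj hv
          have h1' : y = a := Option.some.inj h1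
          subst h1'
          have hM : ∀ t, hh q0 m s (some (M t)) = m + 12 := by
            intro t
            cases t <;> simp only [hh] <;> split_ifs <;> omega
          have hS : ∀ o, hh q0 m s (some (St o)) = m + 11 := by
            intro o
            cases o <;> simp only [hh] <;> split_ifs <;> omega
          have hK : ∀ j, hh q0 m s (some (K j)) = if s = m + 12 then m + 13 else m + 11 := by
            intro j
            cases j <;> simp only [hh] <;> split_ifs <;> omega
          have hD : hh q0 m s (some D) = m + 13 := by
            simp only [hh]; split_ifs <;> omega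
          cases y with
          | M t =>
            rw [hM] at i3 ⊢
            have := i3 v h2 (by omega)
            rw [decide_eq_true (rfl : m + 12 = m + 12)] at this
            exact this
          | St o =>
            rw [hS] at i3 ⊢
            have := i3 v h2 (by omega)
            rw [decide_eq_false (by omega : ¬ m + 11 = m + 12)] at this
            exact this
          | K j =>
            rw [hK] at i2 i3 ⊢
            by_cases hs12 : s = m + 12
            · rw [if_pos hs12] at i2 ⊢
              rw [decide_eq_true hs12]
              have := i2 v h2 rfl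
              refine ⟨fun h => absurd h.1 (by decide), fun _ => this⟩
            · rw [if_neg hs12] at i3 ⊢
              rw [decide_eq_false hs12]
              have := i3 v h2 (by omega)
              rw [decide_eq_false (by omega : ¬ m + 11 = m + 12)] at this
              refine ⟨fun h => this.1 h.2, fun h => this.2 fun hc => h ⟨rfl, hc⟩⟩
          | D =>
            rw [hD] at i2 ⊢
            have := i2 v h2 rfl
            exact ⟨fun h => h.elim, fun _ => this⟩

/-- the words read from the state `0` -/
def G0 (w : List (Option (Lt Q))) : Prop := ∃ l z, w = (word (full l z)).map some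

/-- the words read from a state which is at most `5` -/
def G : ℕ → List (Option (Lt Q)) → Prop
  | 0, w => G0 w
  | 1, w => G0 (some (M true) :: w)
  | 2, w => G0 (some (M true) :: some (M false) :: w)
  | 3, w => ∃ (z : List Bool) (w' : List (Option (Lt Q))),
      w = (z.map K).map some ++ some D :: w' ∧ G0 w'
  | 4, w => ∃ z : List Bool, w = (z.map K).map some ++ [some D]
  | 5, w => w = []
  | _, _ => True

theorem word_cons (c : Option Q × List Bool) (l : List (Option Q × List Bool)) :
    word (c :: l) = blk c ++ word l := by
  unfold word
  rw [List.flatMap_cons]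

theorem h0 (y : Lt Q) : hh q0 m 0 (some y) = (match y with | M true => 1 | _ => m + 14) := by
  rcases y with (_ | _) | (_ | q) | (_ | _) | _ <;> simp only [hh] <;> split_ifs <;>
    first | omega | contradiction

theorem h1 (y : Lt Q) : hh q0 m 1 (some y) = (match y with | M false => 2 | _ => m + 14) := by
  rcases y with (_ | _) | (_ | q) | (_ | _) | _ <;> simp only [hh] <;> split_ifs <;>
    first | omega | contradiction

theorem h2 (y : Lt Q) : hh q0 m 2 (some y) =
    (match y with | St none => 4 | St (some _) => 3 | _ => m + 14) := by
  rcases y with (_ | _) | (_ | q) | (_ | _) | _ <;> simp only [hh] <;> split_ifs <;>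
    first | omega | contradiction

theorem h3 (y : Lt Q) : hh q0 m 3 (some y) = (match y with | K _ => 3 | D => 0 | _ => m + 14) := by
  rcases y with (_ | _) | (_ | q) | (_ | _) | _ <;> simp only [hh] <;> split_ifs <;>
    first | omega | contradiction

theorem h4 (y : Lt Q) : hh q0 m 4 (some y) = (match y with | K _ => 4 | D => 5 | _ => m + 14) := by
  rcases y with (_ | _) | (_ | q) | (_ | _) | _ <;> simp only [hh] <;> split_ifs <;>
    first | omega | contradiction

theorem h5 (y : Lt Q) : hh q0 m 5 (some y) = m + 14 := by
  rcases y with (_ | _) | (_ | q) | (_ | _) | _ <;> simp only [hh] <;> split_ifs <;>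
    first | omega | contradiction

theorem h6 (y : Lt Q) : hh q0 m 6 (some y) = (match y with | D => 0 | _ => m + 14) := by
  rcases y with (_ | _) | (_ | q) | (_ | _) | _ <;> simp only [hh] <;> split_ifs <;>
    first | omega | contradiction

theorem h7 (i : ℕ) (hi : i < m) (y : Lt Q) :
    hh q0 m (i + 7) (some y) = (match y with | K true => i + 6 | _ => m + 14) := by
  rcases y with (_ | _) | (_ | q) | (_ | _) | _ <;> simp only [hh] <;> split_ifs <;>
    first | omega | contradiction

theorem h17 (y : Lt Q) (hy : y ≠ St (some q0)) : hh q0 m (m + 7) (some y) = m + 14 := by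
  rcases y with (_ | _) | (_ | q) | (_ | _) | _ <;> simp only [hh] <;> split_ifs <;>
    first | omega | contradiction | (exfalso; simp_all)

theorem h17' : hh q0 m (m + 7) (some (St (some q0))) = m + 6 := by
  simp only [hh, if_true]

theorem h18 (y : Lt Q) : hh q0 m (m + 8) (some y) =
    (match y with | M false => m + 7 | _ => m + 14) := by
  rcases y with (_ | _) | (_ | q) | (_ | _) | _ <;> simp only [hh] <;> split_ifs <;>
    first | omega | contradiction

theorem h19 (y : Lt Q) : hh q0 m (m + 9) (some y) =
    (match y with | M true => m + 8 | _ => m + 14) := by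
  rcases y with (_ | _) | (_ | q) | (_ | _) | _ <;> simp only [hh] <;> split_ifs <;>
    first | omega | contradiction

theorem run_G (w : List (Option (Lt Q))) : ∀ s, s ≤ 5 → run q0 m s w = 5 → G s w := by
  induction w with
  | nil =>
    intro s _ h
    have : s = 5 := h
    subst this
    rfl
  | cons x w ih =>
    intro s hs h
    rw [run_cons] at h
    have any : hh q0 m s x ≠ m + 14 := by
      intro hc
      rw [hc, run_any] at h
      omega
    have hcases : s = 0 ∨ s = 1 ∨ s = 2 ∨ s = 3 ∨ s = 4 ∨ s = 5 := by omega
    have c10 : s ≠ m + 10 := by omega
    cases x with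
    | none => exact absurd (hh_none q0 m s c10) any
    | some y =>
    rcases hcases with rfl | rfl | rfl | rfl | rfl | rfl
    · rw [h0] at h any
      rcases y with (_ | _) | _ | _ | _
      · exact absurd rfl any
      · exact ih 1 (by omega) h
      · exact absurd rfl any
      · exact absurd rfl any
      · exact absurd rfl any
    · rw [h1] at h any
      rcases y with (_ | _) | _ | _ | _
      · exact ih 2 (by omega) h
      · exact absurd rfl any
      · exact absurd rfl any
      · exact absurd rfl any
      · exact absurd rfl any
    · rw [h2] at h any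
      rcases y with _ | (_ | q) | _ | _
      · exact absurd rfl any
      · obtain ⟨z, hz⟩ := ih 4 (by omega) h
        refine ⟨[], z, ?_⟩
        rw [hz]
        simp [word, full, blk]
      · obtain ⟨z, w', hz, l, z', hl⟩ := ih 3 (by omega) h
        refine ⟨(q, z) :: l, z', ?_⟩
        have : full ((q, z) :: l) z' = (some q, z) :: full l z' := rfl
        rw [this, word_cons, List.map_append, ← hl, hz]
        simp [blk]
      · exact absurd rfl any
      · exact absurd rfl any
    · rw [h3] at h any
      rcases y with _ | _ | j | _
      · exact absurd rfl any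
      · exact absurd rfl any
      · obtain ⟨z, w', hz, hw'⟩ := ih 3 (by omega) h
        exact ⟨j :: z, w', by rw [hz]; rfl, hw'⟩
      · exact ⟨[], _, rfl, ih 0 (by omega) h⟩
    · rw [h4] at h any
      rcases y with _ | _ | j | _
      · exact absurd rfl any
      · exact absurd rfl any
      · obtain ⟨z, hz⟩ := ih 4 (by omega) h
        exact ⟨j :: z, by rw [hz]; rfl⟩
      · have h4 : w = [] := ih 5 (by omega) h
        exact ⟨[], by rw [h4]; rfl⟩
    · exact absurd (h5 q0 m y) any

theorem run_pre (i : ℕ) (hi : i ≤ m) : ∀ w : List (Option (Lt Q)), run q0 m (i + 6) w = 5 →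
    ∃ w', w = List.replicate i (some (K true)) ++ some D :: w' ∧ G0 w' := by
  induction i with
  | zero =>
    intro w h
    cases w with
    | nil => exact absurd h (by rw [run_nil]; omega)
    | cons x w =>
      rw [run_cons] at h
      have any : hh q0 m 6 x ≠ m + 14 := by
        intro hc
        rw [Nat.zero_add, hc, run_any] at h
        omega
      cases x with
      | none => exact absurd (hh_none q0 m _ (by omega)) any
      | some y =>
        rw [Nat.zero_add, h6] at h
        rw [h6] at any
        rcases y with _ | _ | _ | _
        · exact absurd rfl any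
        · exact absurd rfl any
        · exact absurd rfl any
        · exact ⟨w, rfl, run_G q0 m w 0 (by omega) h⟩
  | succ i ih =>
    intro w h
    cases w with
    | nil => exact absurd h (by rw [run_nil]; omega)
    | cons x w =>
      rw [run_cons] at h
      have any : hh q0 m (i + 7) x ≠ m + 14 := by
        intro hc
        rw [show i + 1 + 6 = i + 7 by omega, hc, run_any] at h
        omega
      rw [show i + 1 + 6 = i + 7 by omega] at h
      cases x with
      | none => exact absurd (hh_none q0 m _ (by omega)) any
      | some y =>
        rw [h7 q0 m i (by omega)] at h any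
        rcases y with _ | _ | (_ | _) | _
        · exact absurd rfl any
        · exact absurd rfl any
        · exact absurd rfl any
        · obtain ⟨w', hw', hG⟩ := ih (by omega) w h
          exact ⟨w', by rw [hw', List.replicate_succ]; rfl, hG⟩
        · exact absurd rfl any

theorem run_start (w : List (Option (Lt Q))) (h : run q0 m (m + 9) w = 5) :
    ∃ l z, w = (word (full ((q0, List.replicate m true) :: l) z)).map some := by
  cases w with
  | nil => exact absurd h (by rw [run_nil]; omega)
  | cons x w =>
  rw [run_cons] at h
  have any : hh q0 m (m + 9) x ≠ m + 14 := by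
    intro hc
    rw [hc, run_any] at h
    omega
  cases x with
  | none => exact absurd (hh_none q0 m _ (by omega)) any
  | some y =>
  rw [h19] at h any
  rcases y with (_ | _) | _ | _ | _
  · exact absurd rfl any
  · change run q0 m (m + 8) w = 5 at h
    cases w with
    | nil => exact absurd h (by rw [run_nil]; omega)
    | cons x w =>
    rw [run_cons] at h
    have any : hh q0 m (m + 8) x ≠ m + 14 := by
      intro hc
      rw [hc, run_any] at h
      omega
    cases x with
    | none => exact absurd (hh_none q0 m _ (by omega)) any
    | some y =>
    rw [h18] at h any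
    rcases y with (_ | _) | _ | _ | _
    · change run q0 m (m + 7) w = 5 at h
      cases w with
      | nil => exact absurd h (by rw [run_nil]; omega)
      | cons x w =>
      rw [run_cons] at h
      have any : hh q0 m (m + 7) x ≠ m + 14 := by
        intro hc
        rw [hc, run_any] at h
        omega
      cases x with
      | none => exact absurd (hh_none q0 m _ (by omega)) any
      | some y =>
      by_cases hy : y = St (some q0)
      · subst hy
        rw [h17'] at h
        obtain ⟨w', hw', l, z, hl⟩ := run_pre q0 m m le_rfl w h
        refine ⟨l, z, ?_⟩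
        have : full ((q0, List.replicate m true) :: l) z =
          (some q0, List.replicate m true) :: full l z := rfl
        rw [this, word_cons, List.map_append, ← hl, hw']
        simp [blk, List.map_replicate]
      · exact absurd (h17 q0 m y hy) any
    · exact absurd rfl any
    · exact absurd rfl any
    · exact absurd rfl any
    · exact absurd rfl any
  · exact absurd rfl any
  · exact absurd rfl any
  · exact absurd rfl any

theorem run_append (s : ℕ) (v w : List (Option (Lt Q))) :
    run q0 m s (v ++ w) = run q0 m (run q0 m s v) w := by
  unfold run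
  rw [List.foldl_append]

theorem run_K (s : ℕ) (hs : s = 3 ∨ s = 4) (z : List Bool) :
    run q0 m s ((z.map K).map some) = s := by
  induction z with
  | nil => rfl
  | cons j z ih =>
    rw [List.map_cons, List.map_cons, run_cons]
    rcases hs with rfl | rfl
    · rw [h3]; exact ih
    · rw [h4]; exact ih

theorem run_word (l : List (Q × List Bool)) (z : List Bool) :
    run q0 m 0 ((word (full l z)).map some) = 5 := by
  induction l with
  | nil =>
    have : (word (full ([] : List (Q × List Bool)) z)).map some =
        some (M true) :: some (M false) :: some (St none) :: ((z.map K).map some ++ [some D]) := by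
      simp [word, full, blk]
    rw [this, run_cons, run_cons, run_cons, h0, h1, h2, run_append]
    simp only
    rw [run_K q0 m 4 (Or.inr rfl), run_cons, h4]
    rfl
  | cons p l ih =>
    have : (word (full (p :: l) z)).map some =
        some (M true) :: some (M false) :: some (St (some p.1)) ::
          ((p.2.map K).map some ++ (some D :: (word (full l z)).map some)) := by
      have e1 : full (p :: l) z = (some p.1, p.2) :: full l z := rfl
      rw [e1, word_cons]
      simp [blk]
    rw [this, run_cons, run_cons, run_cons, h0, h1, h2, run_append]
    simp only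
    rw [run_K q0 m 3 (Or.inl rfl), run_cons, h3]
    exact ih

theorem run_rep (i : ℕ) (hi : i ≤ m) :
    run q0 m (i + 6) (List.replicate i (some (K true))) = 6 := by
  induction i with
  | zero => rfl
  | succ i ih =>
    rw [List.replicate_succ, run_cons, show i + 1 + 6 = i + 7 by omega, h7 q0 m i (by omega)]
    exact ih (by omega)

theorem run_full (l : List (Q × List Bool)) (z : List Bool) :
    run q0 m (m + 9) ((word (full ((q0, List.replicate m true) :: l) z)).map some) = 5 := by
  have : (word (full ((q0, List.replicate m true) :: l) z)).map some =
      some (M true) :: some (M false) :: some (St (some q0)) ::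
        (List.replicate m (some (K true)) ++ (some D :: (word (full l z)).map some)) := by
    have e1 : full ((q0, List.replicate m true) :: l) z =
      (some q0, List.replicate m true) :: full l z := rfl
    rw [e1, word_cons]
    simp [blk, List.map_replicate]
  rw [this, run_cons, run_cons, run_cons, h19, h18, h17', run_append]
  rw [run_rep q0 m m le_rfl, run_cons, h6]
  exact run_word q0 m l z

theorem hh_inside (s : ℕ) (hs : s ≤ m + 9 ∨ s = m + 14) (x : Option (Lt Q)) :
    hh q0 m s x ≤ m + 9 ∨ hh q0 m s x = m + 14 := by
  rcases x with _ | (_ | _) | (_ | q) | (_ | _) | _ <;> simp only [hh] <;> split_ifs <;> omega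

theorem run_inside (w : List (Option (Lt Q))) : ∀ s, (s ≤ m + 9 ∨ s = m + 14) →
    (run q0 m s w ≤ m + 9 ∨ run q0 m s w = m + 14) := by
  induction w with
  | nil => intro s hs; exact hs
  | cons x w ih => intro s hs; exact ih _ (hh_inside q0 m s hs x)

theorem hh_init (y : Lt Q) : hh q0 m (m + 10) (some y) = hh q0 m (m + 11) (some y) := by
  rcases y with (_ | _) | (_ | q) | (_ | _) | _ <;> simp only [hh] <;> split_ifs <;>
    first | omega | contradiction | rfl | (exfalso; tauto)

theorem accept_iff (w : List (Option (Lt Q))) :
    (run q0 m (m + 10) w ≠ 5 ∧ run q0 m (m + 10) w ≠ m + 13) ↔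
      (∃ v : List (Lt Q), w = v.map some ∧ good false v) ∨
      (none ∈ w ∧ ¬ ∃ l z, w =
        none :: (word (full ((q0, List.replicate m true) :: l) z)).map some) := by
  cases w with
  | nil =>
    constructor
    · intro _; exact Or.inl ⟨[], rfl, trivial⟩
    · intro _; rw [run_nil]; omega
  | cons x w =>
    rw [run_cons]
    cases x with
    | none =>
      have e1 : hh q0 m (m + 10) none = m + 9 := by simp only [hh, if_true]
      rw [e1]
      constructor
      · rintro ⟨h, _⟩
        refine Or.inr ⟨by simp, ?_⟩
        rintro ⟨l, z, hw⟩
        rw [(List.cons.inj hw).2] at h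
        exact h (run_full q0 m l z)
      · rintro (⟨v, hv, _⟩ | ⟨_, h⟩)
        · cases v with
          | nil => simp at hv
          | cons a v => simp at hv
        · refine ⟨fun hc => ?_, ?_⟩
          · obtain ⟨l, z, hl⟩ := run_start q0 m w hc
            exact h ⟨l, z, by rw [hl]⟩
          · rcases run_inside q0 m w (m + 9) (Or.inl le_rfl) with h | h <;> omega
    | some y =>
      rw [hh_init, ← run_cons]
      obtain ⟨r1, _, r3⟩ := run_flags q0 m (some y :: w) (m + 11) (Or.inl rfl)
      have nf : ¬ ∃ l z, some y :: w =
          none :: (word (full ((q0, List.replicate m true) :: l) z)).map some := by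
        rintro ⟨l, z, h⟩
        exact absurd (List.cons.inj h).1 (by simp)
      by_cases hn : none ∈ some y :: w
      · rw [r1 hn]
        exact ⟨fun _ => Or.inr ⟨hn, nf⟩, fun _ => by omega⟩
      · obtain ⟨v, hv⟩ := exists_map_some _ hn
        have r4 := r3 v hv (by omega)
        rw [decide_eq_false (by omega : ¬ m + 11 = m + 12)] at r4
        constructor
        · rintro ⟨_, h⟩
          left
          refine ⟨v, hv, ?_⟩
          by_contra hg
          exact h (r4.2 hg)
        · rintro (⟨v', hv', hg⟩ | ⟨h, _⟩)
          · have : v' = v := List.map_injective_iff.2 (Option.some_injective _) (hv'.symm.trans hv)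
            subst this
            rcases r4.1 hg with h | h <;> rw [h] <;> omega
          · exact absurd h hn

end analysis

/-! ### The regular language -/

/-- The automaton of the regular language. -/
def dfa {k : ℕ} (e : Option (Lt Q) ≃ Fin k) : DFA (Fin k) (Option (Option Bool)) where
  step := fun s a => match s, e.symm a with
    | none, _ => none
    | some none, none => none
    | some none, some _ => some none
    | some (some _), none => none
    | some (some _), some (M _) => some (some true)
    | some (some _), some (St _) => some (some false)
    | some (some p), some (K _) => if p then some none else some (some false)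
    | some (some _), some D => some none
  start := some (some false)
  accept := {s | s ≠ some none}

theorem dfa_none {k : ℕ} (e : Option (Lt Q) ≃ Fin k) (w : List (Fin k)) :
    (dfa e).evalFrom none w = none := by
  induction w with
  | nil => rfl
  | cons a w ih =>
    rw [DFA.evalFrom_cons]
    exact ih

theorem dfa_some_none {k : ℕ} (e : Option (Lt Q) ≃ Fin k) (w : List (Fin k)) :
    (dfa e).evalFrom (some none) w ≠ some none ↔ none ∈ w.map e.symm := by
  induction w with
  | nil => simp [DFA.evalFrom]
  | cons a w ih =>
    rw [DFA.evalFrom_cons, List.map_cons, List.mem_cons]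
    cases h : e.symm a with
    | none =>
      have : (dfa e).step (some none) a = none := by simp [dfa, h]
      rw [this, dfa_none]
      simp
    | some y =>
      have : (dfa e).step (some none) a = some none := by simp [dfa, h]
      rw [this, ih]
      simp

theorem dfa_some {k : ℕ} (e : Option (Lt Q) ≃ Fin k) (w : List (Fin k)) : ∀ p : Bool,
    (dfa e).evalFrom (some (some p)) w ≠ some none ↔
      none ∈ w.map e.symm ∨ ∃ v : List (Lt Q), w.map e.symm = v.map some ∧ good p v := by
  induction w with
  | nil =>
    intro p
    constructor
    · intro _; exact Or.inr ⟨[], rfl, trivial⟩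
    · intro _; simp [DFA.evalFrom]
  | cons a w ih =>
    intro p
    rw [DFA.evalFrom_cons, List.map_cons, List.mem_cons]
    cases h : e.symm a with
    | none =>
      have : (dfa e).step (some (some p)) a = none := by simp [dfa, h]
      rw [this, dfa_none]
      simp
    | some y =>
      have key : ∀ p' : Bool, (∀ v, good p (y :: v) ↔ good p' v) →
          (((none = some y ∨ none ∈ w.map e.symm) ∨
            ∃ v : List (Lt Q), some y :: w.map e.symm = v.map some ∧ good p v) ↔
          (none ∈ w.map e.symm ∨ ∃ v : List (Lt Q), w.map e.symm = v.map some ∧ good p' v)) := by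
        intro p' hp'
        constructor
        · rintro ((h | h) | ⟨v, h1, h2⟩)
          · exact absurd h (by simp)
          · exact Or.inl h
          · cases v with
            | nil => simp at h1
            | cons b v =>
              rw [List.map_cons] at h1
              obtain ⟨h3, h4⟩ := List.cons.inj h1
              have h3' : y = b := Option.some.inj h3
              subst h3'
              exact Or.inr ⟨v, h4, (hp' v).1 h2⟩
        · rintro (h | ⟨v, h1, h2⟩)
          · exact Or.inl (Or.inr h)
          · exact Or.inr ⟨y :: v, by rw [h1]; rfl, (hp' v).2 h2⟩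
      have key2 : (∀ v, ¬ good p (y :: v)) →
          (((none = some y ∨ none ∈ w.map e.symm) ∨
            ∃ v : List (Lt Q), some y :: w.map e.symm = v.map some ∧ good p v) ↔
          none ∈ w.map e.symm) := by
        intro hp'
        constructor
        · rintro ((h | h) | ⟨v, h1, h2⟩)
          · exact absurd h (by simp)
          · exact h
          · cases v with
            | nil => simp at h1
            | cons b v =>
              rw [List.map_cons] at h1
              obtain ⟨h3, h4⟩ := List.cons.inj h1
              have h3' : y = b := Option.some.inj h3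
              subst h3'
              exact absurd h2 (hp' v)
        · intro h
          exact Or.inl (Or.inr h)
      cases y with
      | M t =>
        have : (dfa e).step (some (some p)) a = some (some true) := by simp [dfa, h]
        rw [this, ih, key true (fun v => Iff.rfl)]
      | St o =>
        have : (dfa e).step (some (some p)) a = some (some false) := by simp [dfa, h]
        rw [this, ih, key false (fun v => Iff.rfl)]
      | K j =>
        cases p with
        | true =>
          have : (dfa e).step (some (some true)) a = some none := by simp [dfa, h]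
          rw [this, dfa_some_none, key2 (fun v hv => absurd hv.1 (by decide))]
        | false =>
          have : (dfa e).step (some (some false)) a = some (some false) := by simp [dfa, h]
          rw [this, ih, key false (fun v => ⟨fun hv => hv.2, fun hv => ⟨rfl, hv⟩⟩)]
      | D =>
        have : (dfa e).step (some (some p)) a = some none := by simp [dfa, h]
        rw [this, dfa_some_none, key2 (fun v hv => hv.elim)]

/-- The regular language on the left side of the equality. -/
def langL {k : ℕ} (e : Option (Lt Q) ≃ Fin k) : Language (Fin k) :=
  {w | none ∈ w.map e.symm ∨ ∃ v : List (Lt Q), w.map e.symm = v.map some ∧ good false v}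

theorem langL_regular {k : ℕ} (e : Option (Lt Q) ≃ Fin k) : (langL e).IsRegular := by
  refine ⟨Option (Option Bool), inferInstance, dfa e, ?_⟩
  ext w
  show (dfa e).evalFrom (some (some false)) w ≠ some none ↔ _
  rw [dfa_some]
  rfl

/-! ### The theorem -/

theorem shuf_mem {A : Type} {u v w : List A} (h : Shuf u v w) (a : A) :
    a ∈ w ↔ a ∈ u ∨ a ∈ v := by
  induction h with
  | nil => simp
  | left b _ ih => simp only [List.mem_cons, ih]; tauto
  | right b _ ih => simp only [List.mem_cons, ih]; tauto

theorem shuf_nil {A : Type} {u v w : List A} (h : Shuf u v w) : v = [] → u = w := by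
  induction h with
  | nil => intro _; rfl
  | left b _ ih => intro hv; rw [ih hv]
  | right b _ ih => intro hv; simp at hv

theorem main [Finite Q] {k : ℕ} (e : Option (Lt Q) ≃ Fin k) (q0 : Q) (m : ℕ) :
    (langL e : Set (List (Fin k))) = shuffle (faLang (code e q0 m)) (mach N e).lang ↔
      ¬ N.Halts (some q0) (ini m) := by
  have hc : cnt (List.replicate m true) = ini m := by
    funext j
    unfold cnt ini
    cases j <;> simp [List.count_replicate]
  constructor
  · intro h hH
    obtain ⟨l, z', cs, g1, g2⟩ := halts_full N hH (List.replicate m true) hc
    cases l with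
    | nil => simp [full] at g1
    | cons p l =>
      have g3 : p = (q0, List.replicate m true) := by
        have e1 : full (p :: l) z' = (some p.1, p.2) :: full l z' := rfl
        rw [e1] at g1
        have := (List.cons.inj g1).1
        simp only [Prod.mk.injEq, Option.some.injEq] at this
        exact Prod.ext this.1 this.2
      subst g3
      set W := (word (full ((q0, List.replicate m true) :: l) z')).map some with hW
      have hw : (none :: W).map e ∈ (langL e : Set (List (Fin k))) := by
        left
        simp
      rw [h] at hw
      obtain ⟨u, hu, v, hv, hs⟩ := hw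
      have hs2 := (mem_wordShuffle.1 hs).map e.symm
      have e2 : ((none :: W).map e).map e.symm = none :: W := by simp
      rw [e2] at hs2
      have hu2 := (accept_iff q0 m _).1 ((mem_faLang e q0 m u).1 hu)
      have nW : none ∉ W := by
        rw [hW]
        simp
      rcases (mem_mach N e v).1 hv with hv2 | ⟨v', hv2, hv3⟩
      · have e3 := shuf_nil hs2 hv2
        rw [e3] at hu2
        rcases hu2 with ⟨x, hx, _⟩ | ⟨_, hx⟩
        · cases x with
          | nil => simp at hx
          | cons a x => simp at hx
        · exact hx ⟨l, z', rfl⟩
      · rw [hv2] at hs2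
        generalize hU : u.map e.symm = U at hs2 hu2
        cases hs2 with
        | left _ hs3 => exact nW ((shuf_mem hs3 none).2 (Or.inr (by simp)))
        | right _ hs3 =>
          have nU : none ∉ U := fun hc => nW ((shuf_mem hs3 none).2 (Or.inl hc))
          rcases hu2 with ⟨x, hx, hx2⟩ | ⟨hx, _⟩
          · have hs4 := hs3.map (fun o : Option (Lt Q) => o.getD D)
            rw [hx, hW] at hs4
            simp only [List.map_map, Function.comp_def, Option.getD_some, List.map_id'] at hs4
            exact g2 (main_first N hs4 hx2 hv3)
          · exact nU hx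
  · intro hH
    ext w
    constructor
    · intro hw
      by_cases hf : w ∈ faLang (code e q0 m)
      · refine ⟨w, hf, [], (mem_mach N e []).2 (Or.inl rfl), mem_wordShuffle.2 ?_⟩
        have := Shuf.left_all w (Shuf.nil (A := Fin k))
        simpa using this
      · rw [mem_faLang, accept_iff, not_or, not_and, not_not] at hf
        have hn : none ∈ w.map e.symm := by
          rcases hw with hw | hw
          · exact hw
          · exact absurd hw hf.1
        obtain ⟨l, z, h⟩ := hf.2 hn
        have hm : mm N (full ((q0, List.replicate m true) :: l) z) := by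
          by_contra hcon
          apply hH
          have := full_halts N _ _ hcon _ _ rfl
          rw [← hc]
          exact this
        obtain ⟨v, u, g1, g2, g3⟩ := main_back N hm
        refine ⟨(v.map some).map e, ?_, (none :: u.map some).map e, ?_, ?_⟩
        · rw [mem_faLang, accept_iff]
          left
          exact ⟨v, by simp [List.map_map], g2⟩
        · rw [mem_mach]
          right
          exact ⟨u, by simp [List.map_map], g3⟩
        · rw [mem_wordShuffle]
          have g4 := (Shuf.right none (g1.map some)).map e
          rw [← h] at g4
          have : (w.map e.symm).map e = w := by simp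
          rwa [this] at g4
    · rintro ⟨u, hu, v, hv, hs⟩
      have hs2 := (mem_wordShuffle.1 hs).map e.symm
      have hu2 := (accept_iff q0 m _).1 ((mem_faLang e q0 m u).1 hu)
      rcases hu2 with hu2 | ⟨hu2, _⟩
      · rcases (mem_mach N e v).1 hv with hv2 | ⟨v', hv2, _⟩
        · right
          rw [← shuf_nil hs2 hv2]
          exact hu2
        · left
          exact (shuf_mem hs2 none).2 (Or.inr (by rw [hv2]; simp))
      · left
        exact (shuf_mem hs2 none).2 (Or.inl hu2)

/-- **Theorem.** There are a regular language `L` and a language `L₂` accepted by a deterministic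
finite automaton with one `1`-reversal-bounded counter such that it is undecidable, for a given
finite automaton with language `L₁`, whether `L` is the shuffle of `L₁` and `L₂`; this remains
undecidable for deterministic finite automata, which can even be taken from a computable
sequence. -/
theorem result : ∃ (k : ℕ) (L : Language (Fin k)) (M : DCM (Fin k)),
    L.IsRegular ∧ M.OneReversal ∧
    ¬ ComputablePred (fun c : FACode k => (L : Set (List (Fin k))) = shuffle (faLang c) M.lang) ∧
    ∃ f : ℕ → FACode k, Computable f ∧ (∀ n, Deterministic (f n)) ∧
      ¬ ComputablePred (fun n => (L : Set (List (Fin k))) = shuffle (faLang (f n)) M.lang) := by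
  classical
  obtain ⟨Q, hQ, N, q0, g, -, hg, hund⟩ := exists_sys
  let _ : Fintype (Option (Lt Q)) := Fintype.ofFinite _
  let e : Option (Lt Q) ≃ Fin (Fintype.card (Option (Lt Q))) := Fintype.equivFin _
  have key : ∀ n, (langL e : Set (List (Fin _))) =
      shuffle (faLang (code e q0 (g n))) (mach N e).lang ↔
      ¬ N.Halts (some q0) (ini (g n)) := fun n => main N e q0 (g n)
  have hcomp : Computable (fun n => code e q0 (g n)) := (code_computable e q0).comp hg
  have h2 : ¬ ComputablePred (fun n => (langL e : Set (List (Fin _))) =
      shuffle (faLang (code e q0 (g n))) (mach N e).lang) := by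
    intro h
    apply hund
    have h3 := h.not
    refine h3.of_eq fun n => ?_
    rw [key]
    exact not_not
  refine ⟨_, langL e, mach N e, langL_regular e, mach_oneReversal N e, ?_, _, hcomp,
    fun n => code_deterministic e q0 _, h2⟩
  intro h
  exact h2 (ComputablePred.computable_iff.2 (by
    obtain ⟨f, hf, hf2⟩ := ComputablePred.computable_iff.1 h
    refine ⟨fun n => f (code e q0 (g n)), hf.comp hcomp, ?_⟩
    funext n
    exact congrFun hf2 (code e q0 (g n))))

end Pool.Agent.Results.MP_435b2a_lc.ShuffleEquality
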